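import Pool.Agent.Q173.KS.Stm

/-!
# Project KS, job BIS: the exact bisection
-/

set_option autoImplicit false

namespace Pool.Agent.Q87.KS

open Finset Filter Pool.Agent.Q173.KS

/-- lists which do not touch `X` do not change the values at the subsets of `X` -/
lemma ES_eq_of_sub {α : Type} [DecidableEq α] {X : Finset α} {ℓ : List (Op α)}
    (h : ∀ o ∈ ℓ, o.a ∉ X ∧ o.b ∉ X) (Φ : Finset α → ℝ) {S : Finset α} (hS : S ⊆ X) :
    ES ℓ Φ S = Φ S := by
  unfold ES
  rw [show Φ S = EP ℓ (fun _ => Φ S) from (EP_const ℓ (Φ S)).symm]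
  refine EP_congr_fix (Y := (X : Set α)) (fun o ho => ?_) (fun σ hσ => ?_)
  · exact ⟨fun hh => (h o ho).1 (Finset.mem_coe.1 hh), fun hh => (h o ho).2 (Finset.mem_coe.1 hh)⟩
  · congr 1
    ext x
    rw [Finset.mem_map]
    constructor
    · rintro ⟨y, hy, rfl⟩
      have h1 : σ y = y := hσ y (Finset.mem_coe.2 (hS hy))
      show σ y ∈ S
      rw [h1]
      exact hy
    · intro hx
      exact ⟨x, hx, hσ x (Finset.mem_coe.2 (hS hx))⟩

/-- the first `j` positions of the left half -/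
def LL (N j : ℕ) : Finset (Bool × Fin N) :=
  univ.filter (fun x => x.1 = false ∧ x.2.val < j)

lemma LL_sub (N j : ℕ) : LL N j ⊆ Lf (Fin N) := by
  intro x hx
  unfold LL at hx
  unfold Lf
  rw [Finset.mem_filter] at hx ⊢
  exact ⟨hx.1, hx.2.1⟩

lemma LL_zero (N : ℕ) : LL N 0 = ∅ := by
  unfold LL
  rw [Finset.filter_eq_empty_iff]
  rintro x - ⟨-, h⟩
  exact Nat.not_lt_zero _ h

lemma LL_card {N j : ℕ} (hj : j ≤ N) : (LL N j).card = j := by
  have h : LL N j = (univ : Finset (Fin j)).map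
      ⟨fun i => ((false, Fin.castLE hj i) : Bool × Fin N), fun a b hab => by
        have := (Prod.mk.inj hab).2
        exact Fin.castLE_injective hj this⟩ := by
    ext x
    unfold LL
    rw [Finset.mem_filter, Finset.mem_map]
    constructor
    · rintro ⟨-, h1, h2⟩
      refine ⟨⟨x.2.val, h2⟩, mem_univ _, ?_⟩
      refine Prod.ext h1.symm ?_
      exact Fin.ext rfl
    · rintro ⟨i, -, rfl⟩
      exact ⟨mem_univ _, rfl, i.2⟩
  rw [h, Finset.card_map, Finset.card_univ, Fintype.card_fin]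

theorem bis (hINS : S_INS) (hFIX : S_FIX) (hSUM : S_SUM) (hINIT : S_INIT) (hPHASE : S_PHASE)
    (hSPEC : S_SPEC) (hREL : S_REL) (hPERT : S_PERT) (hROOTS : S_ROOTS) : S_BIS := by
  intro k hk
  obtain ⟨η, hη, hR⟩ := hROOTS k hk
  obtain ⟨N₀, hP⟩ := hPERT k hk η hη
  refine ⟨max N₀ k, 3 * k + 3, fun N hN m hm => ?_⟩
  have hN0 : N₀ ≤ N := le_trans (le_max_left _ _) hN
  have hNk : k ≤ N := le_trans (le_max_right _ _) hN
  have hcN : Fintype.card (Fin N) = N := Fintype.card_fin N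
  obtain ⟨ℓ, hok, hlen, hL, hRt, happ⟩ := hPHASE (Fin N) k (by rw [hcN]; exact hNk)
    (by rw [hcN]; omega) m hm (3 * k + 3)
  rw [hcN] at hlen
  -- the values on the left half
  set w : ℕ → ℝ := fun j => ES ℓ Phi0 (LL N j) with hw
  have hw0 : w 0 = 1 := by
    show ES ℓ Phi0 (LL N 0) = 1
    rw [LL_zero]
    unfold ES
    have h1 : (fun σ : Equiv.Perm (Bool × Fin N) =>
        Phi0 ((∅ : Finset (Bool × Fin N)).map σ.toEmbedding)) = fun _ => (1 : ℝ) := by
      funext σ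
      rw [Finset.map_empty]
      unfold Phi0
      rw [Finset.prod_empty]
    rw [h1]
    exact EP_const ℓ 1
  have hwS : ∀ S : Finset (Bool × Fin N), S ⊆ Lf (Fin N) → S.card ≤ k →
      ES ℓ Phi0 S = w S.card := by
    intro S hS hSk
    have hc : (LL N S.card).card = S.card := LL_card (le_trans hSk hNk)
    refine hL S (LL N S.card) hSk ?_ ?_
    · rw [Finset.sdiff_eq_empty_iff_subset.2 hS, Finset.sdiff_eq_empty_iff_subset.2 (LL_sub N _)]
    · rw [Finset.inter_eq_left.2 hS, Finset.inter_eq_left.2 (LL_sub N _), hc]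
  have hwb : ∀ j ≤ k, |w j - uu N j| ≤ 2 * (((k : ℝ) + k ^ 2) / N) ^ (3 * k + 3) := by
    intro j hj
    have hc : (LL N j).card = j := LL_card (le_trans hj hNk)
    have h1 := happ (LL N j) (by rw [hc]; exact hj)
    rw [hc, hcN] at h1
    exact h1
  obtain ⟨e, he0, heη, hesum⟩ := hP N hN0 w hw0 hwb
  obtain ⟨μ, hμ, hμe⟩ := hR e he0 heη
  obtain ⟨ℓ', hok', hlen', hL', hR', hsum'⟩ := hSPEC (Fin N) k k ℓ hok hL hRt w hwS μ hμ
  -- the sets
  set AL : Finset (Bool × (Fin N ⊕ Fin k)) :=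
    univ.filter (fun x => x.1 = false ∧ x.2.isLeft = true) with hAL
  set AR : Finset (Bool × (Fin N ⊕ Fin k)) :=
    univ.filter (fun x => x.1 = true ∧ x.2.isLeft = true) with hAR
  set ZL : Finset (Bool × (Fin N ⊕ Fin k)) :=
    univ.filter (fun x => x.1 = false ∧ x.2.isLeft = false) with hZL
  set ZR : Finset (Bool × (Fin N ⊕ Fin k)) :=
    univ.filter (fun x => x.1 = true ∧ x.2.isLeft = false) with hZR
  have hULf : AL ∪ ZL = Lf (Fin N ⊕ Fin k) := by
    ext x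
    unfold Lf
    rw [Finset.mem_union, Finset.mem_filter, Finset.mem_filter, Finset.mem_filter]
    constructor
    · rintro (⟨-, h, -⟩ | ⟨-, h, -⟩)
      · exact ⟨mem_univ _, h⟩
      · exact ⟨mem_univ _, h⟩
    · rintro ⟨-, h⟩
      rcases Bool.eq_false_or_eq_true x.2.isLeft with h2 | h2
      · exact Or.inl ⟨mem_univ _, h, h2⟩
      · exact Or.inr ⟨mem_univ _, h, h2⟩
  have hURt : AR ∪ ZR = Rt (Fin N ⊕ Fin k) := by
    ext x
    unfold Rt
    rw [Finset.mem_union, Finset.mem_filter, Finset.mem_filter, Finset.mem_filter]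
    constructor
    · rintro (⟨-, h, -⟩ | ⟨-, h, -⟩)
      · exact ⟨mem_univ _, h⟩
      · exact ⟨mem_univ _, h⟩
    · rintro ⟨-, h⟩
      rcases Bool.eq_false_or_eq_true x.2.isLeft with h2 | h2
      · exact Or.inl ⟨mem_univ _, h, h2⟩
      · exact Or.inr ⟨mem_univ _, h, h2⟩
  have hdL : Disjoint AL ZL := by
    rw [Finset.disjoint_left]
    intro x h1 h2
    rw [hAL, Finset.mem_filter] at h1
    rw [hZL, Finset.mem_filter] at h2
    have := h1.2.2
    rw [h2.2.2] at this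
    exact absurd this (by decide)
  have hdR : Disjoint AR ZR := by
    rw [Finset.disjoint_left]
    intro x h1 h2
    rw [hAR, Finset.mem_filter] at h1
    rw [hZR, Finset.mem_filter] at h2
    have := h1.2.2
    rw [h2.2.2] at this
    exact absurd this (by decide)
  have hJ : Fintype.card (Fin N ⊕ Fin k) = N + k := by
    rw [Fintype.card_sum, Fintype.card_fin, Fintype.card_fin]
  have hcLf : (Lf (Fin N ⊕ Fin k)).card = N + k := by
    rw [← hJ]
    have h : Lf (Fin N ⊕ Fin k) = (univ : Finset (Fin N ⊕ Fin k)).map (emL _) := by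
      ext x
      unfold Lf emL
      rw [Finset.mem_filter, Finset.mem_map]
      constructor
      · rintro ⟨-, h⟩
        exact ⟨x.2, mem_univ _, Prod.ext h.symm rfl⟩
      · rintro ⟨i, -, rfl⟩
        exact ⟨mem_univ _, rfl⟩
    rw [h, Finset.card_map, Finset.card_univ]
  have hcRt : (Rt (Fin N ⊕ Fin k)).card = N + k := by
    rw [← hJ]
    have h : Rt (Fin N ⊕ Fin k) = (univ : Finset (Fin N ⊕ Fin k)).map (emR _) := by
      ext x
      unfold Rt emR
      rw [Finset.mem_filter, Finset.mem_map]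
      constructor
      · rintro ⟨-, h⟩
        exact ⟨x.2, mem_univ _, Prod.ext h.symm rfl⟩
      · rintro ⟨i, -, rfl⟩
        exact ⟨mem_univ _, rfl⟩
    rw [h, Finset.card_map, Finset.card_univ]
  have hcZL : ZL.card = k := by
    have h : ZL = (univ : Finset (Fin k)).map
        ⟨fun i => ((false, Sum.inr i) : Bool × (Fin N ⊕ Fin k)), fun a b hab =>
          Sum.inr_injective (Prod.mk.inj hab).2⟩ := by
      ext x
      rw [hZL, Finset.mem_filter, Finset.mem_map]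
      constructor
      · rintro ⟨-, h1, h2⟩
        obtain ⟨x1, x2⟩ := x
        rcases x2 with x2 | x2
        · simp at h2
        · exact ⟨x2, mem_univ _, Prod.ext h1.symm rfl⟩
      · rintro ⟨i, -, rfl⟩
        exact ⟨mem_univ _, rfl, rfl⟩
    rw [h, Finset.card_map, Finset.card_univ, Fintype.card_fin]
  have hcZR : ZR.card = k := by
    have h : ZR = (univ : Finset (Fin k)).map
        ⟨fun i => ((true, Sum.inr i) : Bool × (Fin N ⊕ Fin k)), fun a b hab =>
          Sum.inr_injective (Prod.mk.inj hab).2⟩ := by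
      ext x
      rw [hZR, Finset.mem_filter, Finset.mem_map]
      constructor
      · rintro ⟨-, h1, h2⟩
        obtain ⟨x1, x2⟩ := x
        rcases x2 with x2 | x2
        · simp at h2
        · exact ⟨x2, mem_univ _, Prod.ext h1.symm rfl⟩
      · rintro ⟨i, -, rfl⟩
        exact ⟨mem_univ _, rfl, rfl⟩
    rw [h, Finset.card_map, Finset.card_univ, Fintype.card_fin]
  obtain ⟨ℓL, hokL, hlenL, hinL, hinvL⟩ := hINS (Bool × (Fin N ⊕ Fin k)) AL ZL hdL
  obtain ⟨ℓR, hokR, hlenR, hinR, hinvR⟩ := hINS (Bool × (Fin N ⊕ Fin k)) AR ZR hdR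
  rw [hULf] at hlenL hinL
  rw [hURt] at hlenR hinR
  rw [hcZL, hcLf] at hlenL
  rw [hcZR, hcRt] at hlenR
  have hLR : ∀ x : Bool × (Fin N ⊕ Fin k), x ∈ Lf (Fin N ⊕ Fin k) → x ∉ Rt (Fin N ⊕ Fin k) := by
    intro x h1 h2
    unfold Lf at h1
    unfold Rt at h2
    rw [Finset.mem_filter] at h1 h2
    have := h1.2
    rw [h2.2] at this
    exact absurd this (by decide)
  have hRL : ∀ x : Bool × (Fin N ⊕ Fin k), x ∈ Rt (Fin N ⊕ Fin k) → x ∉ Lf (Fin N ⊕ Fin k) :=
    fun x h1 h2 => hLR x h2 h1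
  have hARsub : AR ⊆ Rt (Fin N ⊕ Fin k) := by
    rw [← hURt]
    exact Finset.subset_union_left
  -- the states
  set Φ1 : Finset (Bool × (Fin N ⊕ Fin k)) → ℝ := ES ℓ' Phi0 with hΦ1
  set Φ2 : Finset (Bool × (Fin N ⊕ Fin k)) → ℝ := ES ℓL Φ1 with hΦ2
  have h2L : InvOn k (Lf (Fin N ⊕ Fin k)) Φ2 := by
    rw [← hULf]
    exact hinvL k Φ1 hL'
  have h2R : InvOn k AR Φ2 := hFIX (Bool × (Fin N ⊕ Fin k)) k AR Φ1 ℓL
    (fun o ho => ⟨fun h => hLR _ (hinL o ho).1 (hARsub h),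
      fun h => hLR _ (hinL o ho).2 (hARsub h)⟩) hR'
  have h3R : InvOn k (Rt (Fin N ⊕ Fin k)) (ES ℓR Φ2) := by
    rw [← hURt]
    exact hinvR k Φ2 h2R
  have h3L : InvOn k (Lf (Fin N ⊕ Fin k)) (ES ℓR Φ2) :=
    hFIX (Bool × (Fin N ⊕ Fin k)) k (Lf (Fin N ⊕ Fin k)) Φ2 ℓR
      (fun o ho => ⟨hRL _ (hinR o ho).1, hRL _ (hinR o ho).2⟩) h2L
  have hrel : Rel k (ES ℓR Φ2) :=
    ((((hINIT.1 (Fin N ⊕ Fin k) k).2.2.1).ES ℓ').ES ℓL).ES ℓR
  have hsum : ∀ j ≤ k, ∑ S ∈ (Lf (Fin N ⊕ Fin k)).powersetCard j, ES ℓR Φ2 S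
      = ((Fintype.card (Fin N ⊕ Fin k)).choose j : ℝ) * uu (Fintype.card (Fin N ⊕ Fin k)) j := by
    intro j hj
    rw [hJ, ← hesum j hj]
    have h1 : ∑ S ∈ (Lf (Fin N ⊕ Fin k)).powersetCard j, ES ℓR Φ2 S
        = ∑ S ∈ (Lf (Fin N ⊕ Fin k)).powersetCard j, Φ2 S := by
      refine Finset.sum_congr rfl (fun S hS => ?_)
      exact ES_eq_of_sub (fun o ho => ⟨hRL _ (hinR o ho).1, hRL _ (hinR o ho).2⟩) Φ2
        (Finset.mem_powersetCard.1 hS).1
    rw [h1, hΦ2, hSUM (Bool × (Fin N ⊕ Fin k)) (Lf (Fin N ⊕ Fin k)) j Φ1 ℓL hinL, hΦ1,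
      hsum' j hj]
    refine Finset.sum_congr rfl (fun i hi => ?_)
    rw [hμe i (by rw [Finset.mem_range] at hi; omega), hcN]
  have hfin := hREL (Fin N ⊕ Fin k) k (by rw [hJ]; omega) (ES ℓR Φ2) h3L h3R hrel hsum
  refine ⟨ℓR ++ (ℓL ++ ℓ'), hokR.append (hokL.append hok'), ⟨uu (Fintype.card (Fin N ⊕ Fin k)), ?_⟩, ?_⟩
  · intro S hS
    have h1 : ES (ℓR ++ (ℓL ++ ℓ')) Phi0 S = ES ℓR Φ2 S := by
      rw [ES_append]
      have h2 : ES (ℓL ++ ℓ') (Phi0 (I := Fin N ⊕ Fin k)) = Φ2 := by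
        funext S'
        rw [ES_append]
      rw [h2]
    rw [h1]
    exact hfin S hS
  · rw [List.length_append, List.length_append]
    have e1 : 2 * (k * (N + k)) = k * (N + k) + k * (N + k) := by ring
    rw [e1]
    omega

end Pool.Agent.Q87.KS
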